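import Pool.Agent.H23.NVK.MTargets

/-!
# Mertens' theorem for the primes of an abstract semigroup of ideals
-/

set_option autoImplicit false

open MeasureTheory Set Filter
open scoped Real

namespace Pool.Agent.H40.NVK

open Pool.Agent.H23.NVK

section

variable {α : Type} {N : α → ℕ} {ρ δ : ℝ}

open Classical in
/-- the von Mangoldt function -/
noncomputable def La (N : α → ℕ) (n : α →₀ ℕ) : ℝ :=
  ∑ p ∈ n.support, if n.support = {p} then Real.log (N p) else 0

theorem La_single (p : α) (k : ℕ) (hk : k ≠ 0) :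
    La N (Finsupp.single p k) = Real.log (N p) := by
  classical
  unfold La
  rw [Finsupp.support_single_ne_zero p hk, Finset.sum_singleton, if_pos rfl]

theorem La_nonneg (h : AxA N ρ δ) (n : α →₀ ℕ) : 0 ≤ La N n := by
  classical
  unfold La
  refine Finset.sum_nonneg fun p _ => ?_
  split_ifs
  · apply Real.log_nonneg
    have := h.two p
    have h1 : 1 ≤ N p := by omega
    exact_mod_cast h1
  · exact le_rfl

theorem La_ne (n : α →₀ ℕ) (hn : La N n ≠ 0) : ∃ p k, k ≠ 0 ∧ n = Finsupp.single p k := by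
  classical
  unfold La at hn
  obtain ⟨p, _, hp⟩ := Finset.exists_ne_zero_of_sum_ne_zero hn
  have h1 : n.support = {p} := by
    by_contra h
    exact hp (if_neg h)
  rw [Finsupp.support_eq_singleton] at h1
  exact ⟨p, n p, h1.1, h1.2⟩

theorem log_nF (h : AxA N ρ δ) (n : α →₀ ℕ) :
    Real.log (nF N n) = ∑ p ∈ n.support, (n p : ℝ) * Real.log (N p) := by
  unfold nF Finsupp.prod
  push_cast
  rw [Real.log_prod]
  · refine Finset.sum_congr rfl fun p _ => ?_
    rw [Real.log_pow]
  · intro p _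
    have := h.two p
    have h1 : (N p : ℝ) ≠ 0 := by
      have : N p ≠ 0 := by omega
      exact_mod_cast this
    exact pow_ne_zero _ h1

open Classical in
theorem card_pow (n : α →₀ ℕ) (p : α) (hp : p ∈ n.support) :
    ((Finset.HasAntidiagonal.antidiagonal n).filter fun x => x.1.support = {p}).card = n p := by
  have h1 : ((Finset.HasAntidiagonal.antidiagonal n).filter
      fun x : (α →₀ ℕ) × (α →₀ ℕ) => x.1.support = {p}).card = (Finset.Icc 1 (n p)).card := by
    refine Finset.card_nbij' (fun x => x.1 p)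
      (fun k => (Finsupp.single p k, n - Finsupp.single p k)) ?_ ?_ ?_ ?_
    · intro x hx
      simp only [Finset.coe_filter, Finset.HasAntidiagonal.mem_antidiagonal, Set.mem_ofPred_eq] at hx
      obtain ⟨h1, h2⟩ := hx
      rw [Finsupp.support_eq_singleton] at h2
      simp only [Finset.coe_Icc, Set.mem_Icc]
      have h3 : n p = x.1 p + x.2 p := by rw [← h1, Finsupp.add_apply]
      have h4 := h2.1
      constructor <;> omega
    · intro k hk
      simp only [Finset.coe_Icc, Set.mem_Icc] at hk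
      simp only [Finset.coe_filter, Finset.HasAntidiagonal.mem_antidiagonal, Set.mem_ofPred_eq]
      refine ⟨?_, ?_⟩
      · ext q
        rw [Finsupp.add_apply, Finsupp.tsub_apply, Finsupp.single_apply]
        split_ifs with hq
        · subst hq
          omega
        · omega
      · exact Finsupp.support_single_ne_zero p (by omega)
    · intro x hx
      simp only [Finset.coe_filter, Finset.HasAntidiagonal.mem_antidiagonal, Set.mem_ofPred_eq] at hx
      obtain ⟨h1, h2⟩ := hx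
      rw [Finsupp.support_eq_singleton] at h2
      have h3 : Finsupp.single p (x.1 p) = x.1 := h2.2.symm
      apply Prod.ext
      · exact h3
      · show n - Finsupp.single p (x.1 p) = x.2
        rw [h3, ← h1, add_tsub_cancel_left]
    · intro k _
      simp
  rw [h1, Nat.card_Icc]
  omega

theorem cv_La (h : AxA N ρ δ) (n : α →₀ ℕ) :
    cv (La N) (fun _ => 1) n = Real.log (nF N n) := by
  classical
  rw [log_nF h]
  have e1 : ∀ x ∈ Finset.HasAntidiagonal.antidiagonal n,
      La N x.1 * 1 = ∑ p ∈ n.support, if x.1.support = {p} then Real.log (N p) else 0 := by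
    intro x hx
    rw [Finset.HasAntidiagonal.mem_antidiagonal] at hx
    rw [mul_one]
    unfold La
    refine Finset.sum_subset ?_ ?_
    · intro p hp
      rw [Finsupp.mem_support_iff] at hp ⊢
      rw [← hx, Finsupp.add_apply]
      omega
    · intro p _ hp
      rw [if_neg]
      intro h1
      apply hp
      rw [h1]
      exact Finset.mem_singleton_self p
  unfold cv
  have e2 : ∑ x ∈ Finset.HasAntidiagonal.antidiagonal n, La N x.1 * 1 =
      ∑ p ∈ n.support, (n p : ℝ) * Real.log (N p) := by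
    rw [Finset.sum_congr rfl e1, Finset.sum_comm]
    refine Finset.sum_congr rfl fun p hp => ?_
    rw [← Finset.sum_filter, Finset.sum_const, nsmul_eq_mul]
    congr 2
    have := card_pow n p hp
    rw [← this]
  rw [← e2]

theorem cv_comm (a b : (α →₀ ℕ) → ℝ) (n : α →₀ ℕ) : cv a b n = cv b a n := by
  classical
  unfold cv
  refine Finset.sum_nbij' Prod.swap Prod.swap ?_ ?_ ?_ ?_ ?_
  · intro x hx
    rw [Finset.HasAntidiagonal.mem_antidiagonal] at hx ⊢
    rw [← hx, Prod.fst_swap, Prod.snd_swap, add_comm]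
  · intro x hx
    rw [Finset.HasAntidiagonal.mem_antidiagonal] at hx ⊢
    rw [← hx, Prod.fst_swap, Prod.snd_swap, add_comm]
  · intro x _
    exact Prod.swap_swap x
  · intro x _
    exact Prod.swap_swap x
  · intro x _
    exact mul_comm _ _

theorem Lam_congr {a a' : (α →₀ ℕ) → ℝ} (h : ∀ n, a n = a' n) (f : ℝ → ℝ) (y : ℝ) :
    Lam N a f y = Lam N a' f y := by
  unfold Lam
  exact Finset.sum_congr rfl fun n _ => by rw [h]

theorem one_le_div (h : AxA N ρ δ) {y : ℝ} {n : α →₀ ℕ} (hn : n ∈ FM N y) :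
    1 ≤ y / nF N n := by
  rw [h.mem_FM] at hn
  rw [le_div_iff₀ (h.nF_pos n), one_mul]
  exact hn

theorem Lam_congr_f (h : AxA N ρ δ) (a : (α →₀ ℕ) → ℝ) {f g : ℝ → ℝ}
    (hfg : ∀ x, 1 ≤ x → f x = g x) (y : ℝ) : Lam N a f y = Lam N a g y := by
  unfold Lam
  refine Finset.sum_congr rfl fun n hn => ?_
  rw [hfg _ (one_le_div h hn)]

/-- the first identity -/
theorem key1 (h : AxA N ρ δ) (h_CVI : T_CVI) (y : ℝ) :
    Lam N mr (Lam N (fun n => Real.log (nF N n)) (lg 0)) y = Lam N (La N) (fun _ => 1) y := by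
  classical
  have e1 : ∀ x, Lam N (fun n => Real.log (nF N n)) (lg 0) x =
      Lam N (La N) (Lam N (fun _ => 1) (lg 0)) x := by
    intro x
    rw [h.Lam_Lam]
    exact Lam_congr (fun n => (cv_La h n).symm) _ _
  have e2 : Lam N mr (Lam N (fun n => Real.log (nF N n)) (lg 0)) y =
      Lam N (La N) (Lam N mr (Lam N (fun _ => 1) (lg 0))) y := by
    rw [Lam_congr_f h mr (fun x _ => e1 x)]
    exact (h.Lam_Lam mr (La N) _ y).trans
      ((Lam_congr (fun n => cv_comm _ _ n) _ _).trans (h.Lam_Lam (La N) mr _ y).symm)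
  rw [e2]
  refine Lam_congr_f h _ (fun x hx => ?_) y
  rw [h.Lam_Lam]
  unfold Lam
  have e3 : ∀ n ∈ FM N x, cv mr (fun _ => 1) n / nF N n * lg 0 (x / nF N n) =
      if n = 0 then 1 else 0 := by
    intro n _
    rw [(h_CVI α).1 n]
    split_ifs with hn
    · subst hn
      rw [nF_zero]
      simp [lg]
    · simp
  rw [Finset.sum_congr rfl e3, Finset.sum_ite_eq', if_pos]
  rw [h.mem_FM, nF_zero]
  exact_mod_cast hx

/-- the second identity -/
theorem key2 (h : AxA N ρ δ) (x : ℝ) (hx : 1 ≤ x) :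
    Lam N (fun n => Real.log (nF N n)) (lg 0) x =
      Real.log x * Lam N (fun _ => 1) (lg 0) x - Lam N (fun _ => 1) (lg 1) x := by
  unfold Lam
  rw [Finset.mul_sum, ← Finset.sum_sub_distrib]
  refine Finset.sum_congr rfl fun n _ => ?_
  unfold lg
  rw [Real.log_div (by linarith) (h.nF_pos n).ne']
  ring

/-- the sum of the von Mangoldt function -/
theorem psi (h_CVI : T_CVI) (h_SUM : T_SUM) (h_EXP : T_EXP) (h_MU0 : T_MU0) (h_MU1 : T_MU1)
    (h : AxA N ρ δ) : ∃ C : ℝ, 0 < C ∧ ∀ y : ℝ, 1 ≤ y →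
      |Lam N (La N) (fun _ => 1) y - Real.log y| ≤ C := by
  have hρ := h.rho
  have hδ := h.del
  obtain ⟨c, C₀, hC₀, h0⟩ := h_EXP α N ρ δ h 0
  obtain ⟨d, C₁, hC₁, h1⟩ := h_EXP α N ρ δ h 1
  obtain ⟨CM, hCM, hM⟩ := h_MU0 α N ρ δ h
  obtain ⟨CN, hCN, hN⟩ := h_MU1 α N ρ δ h 2 le_rfl
  obtain ⟨C₃, hC₃, hS⟩ := (h_SUM α N ρ δ h).2.2.1 (1 - δ / 2) (by linarith)
  set Er : ℝ → ℝ := fun x => Lam N (fun n => Real.log (nF N n)) (lg 0) x -
    (ρ / 2 * lg 2 x + (c 0 - d 1) * lg 1 x - d 0 * lg 0 x) with hEr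
  set C₂ : ℝ := C₀ * (2 / δ) + C₁ with hC₂
  have hC₂0 : 0 < C₂ := by positivity
  have hErb : ∀ x, 1 ≤ x → |Er x| ≤ C₂ * x ^ (-(δ / 2)) := by
    intro x hx
    have hx0 : 0 < x := by linarith
    have a0 := h0 x hx
    have a1 := h1 x hx
    rw [Finset.sum_range_one] at a0
    rw [Finset.sum_range_succ, Finset.sum_range_one] at a1
    have hl : 0 ≤ Real.log x := Real.log_nonneg hx
    have hp : 0 < x ^ (-δ) := Real.rpow_pos_of_pos hx0 _
    have e1 : Er x = Real.log x * (Lam N (fun _ => 1) (lg 0) x -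
        (ρ * lg (0 + 1) x / ((0 : ℕ) + 1) + c 0 * lg 0 x)) -
        (Lam N (fun _ => 1) (lg 1) x -
        (ρ * lg (1 + 1) x / ((1 : ℕ) + 1) + (d 0 * lg 0 x + d 1 * lg 1 x))) := by
      rw [hEr]
      simp only
      rw [key2 h x hx]
      unfold lg
      push_cast
      ring
    have e2 : Real.log x ≤ x ^ (δ / 2) / (δ / 2) :=
      Real.log_le_rpow_div hx0.le (by linarith)
    have e3 : x ^ (-δ) * x ^ (δ / 2) = x ^ (-(δ / 2)) := by
      rw [← Real.rpow_add hx0]
      congr 1
      ring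
    have e4 : x ^ (-δ) ≤ x ^ (-(δ / 2)) :=
      Real.rpow_le_rpow_of_exponent_le hx (by linarith)
    rw [e1]
    refine (abs_sub _ _).trans ?_
    rw [abs_mul, abs_of_nonneg hl]
    calc Real.log x * |Lam N (fun _ => 1) (lg 0) x -
        (ρ * lg (0 + 1) x / ((0 : ℕ) + 1) + c 0 * lg 0 x)| +
        |Lam N (fun _ => 1) (lg 1) x -
        (ρ * lg (1 + 1) x / ((1 : ℕ) + 1) + (d 0 * lg 0 x + d 1 * lg 1 x))|
        ≤ Real.log x * (C₀ * x ^ (-δ)) + C₁ * x ^ (-δ) := by gcongr
      _ ≤ (x ^ (δ / 2) / (δ / 2)) * (C₀ * x ^ (-δ)) + C₁ * x ^ (-(δ / 2)) := by gcongr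
      _ = C₀ * (2 / δ) * (x ^ (-δ) * x ^ (δ / 2)) + C₁ * x ^ (-(δ / 2)) := by
          field_simp
      _ = C₂ * x ^ (-(δ / 2)) := by
          rw [e3, hC₂]
          ring
  refine ⟨ρ / 2 * CN + |c 0 - d 1| * CM + |d 0| * CM + C₂ * C₃, by positivity, fun y hy => ?_⟩
  have hy0 : 0 < y := by linarith
  have e5 : Lam N (La N) (fun _ => 1) y = ρ / 2 * Lam N mr (lg 2) y +
      (c 0 - d 1) * Lam N mr (lg 1) y - d 0 * Lam N mr (lg 0) y + Lam N mr Er y := by
    rw [← key1 h h_CVI]
    unfold Lam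
    rw [Finset.mul_sum, Finset.mul_sum, Finset.mul_sum, ← Finset.sum_add_distrib,
      ← Finset.sum_sub_distrib, ← Finset.sum_add_distrib]
    refine Finset.sum_congr rfl fun n _ => ?_
    rw [hEr]
    simp only
    unfold Lam
    ring
  have b2 : |Lam N mr (lg 2) y - 2 / ρ * Real.log y| ≤ CN := by
    have := hN y hy
    simp only [Nat.cast_ofNat, Nat.sub_self, pow_zero, mul_one] at this
    have e : lg (2 - 1) y = Real.log y := by
      unfold lg
      norm_num
    rwa [e] at this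
  have b3 : |Lam N mr Er y| ≤ C₂ * C₃ := by
    have e6 : |Lam N mr Er y| ≤ ∑ n ∈ FM N y, C₂ * y ^ (-(δ / 2)) *
        (nF N n : ℝ) ^ (-(1 - δ / 2)) := by
      unfold Lam
      refine (Finset.abs_sum_le_sum_abs _ _).trans (Finset.sum_le_sum fun n hn => ?_)
      have hn0 := h.nF_pos n
      have hy1 := one_le_div h hn
      rw [abs_mul, abs_div, abs_of_pos hn0]
      have e7 := hErb _ hy1
      have e8 : |mr n| ≤ 1 := (h_CVI α).2.2.2.2.2 n
      calc |mr n| / nF N n * |Er (y / nF N n)|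
          ≤ 1 / nF N n * (C₂ * (y / nF N n) ^ (-(δ / 2))) := by gcongr
        _ = C₂ * y ^ (-(δ / 2)) * (nF N n : ℝ) ^ (-(1 - δ / 2)) := by
            rw [Real.div_rpow hy0.le hn0.le]
            have e9 : (nF N n : ℝ) ^ (-(1 - δ / 2)) = 1 / nF N n / (nF N n : ℝ) ^ (-(δ / 2)) := by
              rw [one_div, ← Real.rpow_neg_one, ← Real.rpow_sub hn0]
              congr 1
              ring
            rw [e9]
            ring
    rw [← Finset.mul_sum] at e6
    refine e6.trans ?_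
    have e10 := hS y hy
    have hyp : 0 < y ^ (-(δ / 2)) := Real.rpow_pos_of_pos hy0 _
    calc C₂ * y ^ (-(δ / 2)) * ∑ n ∈ FM N y, (nF N n : ℝ) ^ (-(1 - δ / 2))
        ≤ C₂ * y ^ (-(δ / 2)) * (C₃ * y ^ (1 - (1 - δ / 2))) := by gcongr
      _ = C₂ * C₃ * (y ^ (-(δ / 2)) * y ^ (1 - (1 - δ / 2))) := by ring
      _ = C₂ * C₃ := by
          rw [← Real.rpow_add hy0]
          have : -(δ / 2) + (1 - (1 - δ / 2)) = 0 := by ring
          rw [this, Real.rpow_zero, mul_one]
  obtain ⟨b0, b1⟩ := hM y hy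
  have e11 : Lam N (La N) (fun _ => 1) y - Real.log y =
      ρ / 2 * (Lam N mr (lg 2) y - 2 / ρ * Real.log y) + (c 0 - d 1) * Lam N mr (lg 1) y +
        (-(d 0 * Lam N mr (lg 0) y)) + Lam N mr Er y := by
    rw [e5]
    field_simp
    ring
  rw [e11]
  refine (abs_add_le _ _).trans (add_le_add ?_ b3)
  refine (abs_add_le _ _).trans (add_le_add ?_ ?_)
  · refine (abs_add_le _ _).trans (add_le_add ?_ ?_)
    · rw [abs_mul, abs_of_pos (by positivity)]
      gcongr
    · rw [abs_mul]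
      gcongr
  · rw [abs_neg, abs_mul]
    gcongr

/-- the geometric sum -/
theorem geo (m : ℕ) (hm : 2 ≤ m) (K : ℕ) :
    ∑ k ∈ Finset.range K, 1 / (m : ℝ) ^ (k + 1) ≤ 1 / m + 2 / (m : ℝ) ^ 2 := by
  have hm' : (2 : ℝ) ≤ m := by exact_mod_cast hm
  have hm0 : (0 : ℝ) < m := by linarith
  have h1 : ∀ K : ℕ, ∑ k ∈ Finset.range K, 1 / (m : ℝ) ^ (k + 1) =
      (1 - 1 / (m : ℝ) ^ K) / (m - 1) := by
    intro K
    induction K with
    | zero => simp
    | succ K ih =>
      rw [Finset.sum_range_succ, ih]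
      have : (m : ℝ) - 1 ≠ 0 := by linarith
      field_simp
      ring
  rw [h1]
  have h2 : 0 < 1 / (m : ℝ) ^ K := by positivity
  have h3 : (0 : ℝ) < m - 1 := by linarith
  calc (1 - 1 / (m : ℝ) ^ K) / (m - 1) ≤ 1 / (m - 1) := by
        gcongr
        linarith
    _ ≤ 1 / m + 2 / (m : ℝ) ^ 2 := by
        rw [div_add_div _ _ hm0.ne' (by positivity), div_le_div_iff₀ h3 (by positivity)]
        nlinarith [sq_nonneg ((m : ℝ) - 2), mul_pos hm0 hm0]

/-- the sum over the primes -/
theorem mer1 (h_CVI : T_CVI) (h_SUM : T_SUM) (h_EXP : T_EXP) (h_MU0 : T_MU0) (h_MU1 : T_MU1)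
    (h : AxA N ρ δ) : ∃ C : ℝ, 0 < C ∧ ∀ y : ℝ, 1 ≤ y →
      |∑ p ∈ PM N y, Real.log (N p) / N p - Real.log y| ≤ C := by
  classical
  obtain ⟨C, hC, hψ⟩ := psi h_CVI h_SUM h_EXP h_MU0 h_MU1 h
  have hs : Summable (fun p : α => Real.log (N p) * (N p : ℝ) ^ (-2 : ℝ)) := by
    have := (h_SUM α N ρ δ h).2.1 2 1 (by norm_num)
    simpa using this
  have hNr : ∀ p, (2 : ℝ) ≤ N p := fun p => by exact_mod_cast h.two p
  have hN0 : ∀ p, (0 : ℝ) < N p := fun p => by
    have := hNr p
    linarith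
  have hl : ∀ p, 0 ≤ Real.log (N p) := fun p => Real.log_nonneg (by
    have := hNr p
    linarith)
  set B := ∑' p : α, Real.log (N p) * (N p : ℝ) ^ (-2 : ℝ) with hB
  have hB0 : 0 ≤ B := tsum_nonneg fun p =>
    mul_nonneg (hl p) (Real.rpow_nonneg (hN0 p).le _)
  refine ⟨C + 2 * B, by linarith, fun y hy => ?_⟩
  set g : (α →₀ ℕ) → ℝ := fun n => La N n / nF N n with hg
  have hg0 : ∀ n, 0 ≤ g n := fun n => div_nonneg (La_nonneg h n) (h.nF_pos n).le
  have hLam : Lam N (La N) (fun _ => 1) y = ∑ n ∈ FM N y, g n := by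
    unfold Lam
    refine Finset.sum_congr rfl fun n _ => ?_
    rw [mul_one]
  have hgs : ∀ p k, g (Finsupp.single p (k + 1)) = Real.log (N p) * (1 / (N p : ℝ) ^ (k + 1)) := by
    intro p k
    rw [hg]
    simp only
    rw [La_single p (k + 1) (by omega), nF_single]
    push_cast
    ring
  -- lower bound
  have lower : ∑ p ∈ PM N y, Real.log (N p) / N p ≤ ∑ n ∈ FM N y, g n := by
    have e1 : ∑ p ∈ PM N y, Real.log (N p) / N p =
        ∑ n ∈ (PM N y).image (fun p => Finsupp.single p 1), g n := by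
      rw [Finset.sum_image]
      · refine Finset.sum_congr rfl fun p _ => ?_
        have := hgs p 0
        rw [zero_add, pow_one] at this
        rw [this]
        ring
      · intro p _ q _ hpq
        exact (Finsupp.single_left_inj one_ne_zero).1 hpq
    rw [e1]
    refine Finset.sum_le_sum_of_subset_of_nonneg ?_ fun n _ _ => hg0 n
    intro n hn
    rw [Finset.mem_image] at hn
    obtain ⟨p, hp, rfl⟩ := hn
    rw [h.mem_PM] at hp
    rw [h.mem_FM, nF_single, pow_one]
    exact hp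
  -- upper bound
  have upper : ∑ n ∈ FM N y, g n ≤ ∑ p ∈ PM N y, Real.log (N p) / N p + 2 * B := by
    set K := ⌈y⌉₊ with hK
    set T := PM N y ×ˢ Finset.range K with hT
    set e : α × ℕ → (α →₀ ℕ) := fun x => Finsupp.single x.1 (x.2 + 1) with he
    have hinj : Set.InjOn e T := by
      rintro ⟨p, k⟩ _ ⟨q, l⟩ _ hpq
      have h1 : Finsupp.single p (k + 1) = Finsupp.single q (l + 1) := hpq
      rw [Finsupp.single_eq_single_iff] at h1
      rcases h1 with h1 | h1
      · rw [Prod.mk.injEq]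
        exact ⟨h1.1, by omega⟩
      · omega
    have e1 : ∑ n ∈ FM N y, g n = ∑ n ∈ (FM N y).filter (fun n => g n ≠ 0), g n :=
      (Finset.sum_filter_ne_zero _).symm
    have e2 : (FM N y).filter (fun n => g n ≠ 0) ⊆ T.image e := by
      intro n hn
      rw [Finset.mem_filter] at hn
      have h1 : La N n ≠ 0 := by
        intro h0
        apply hn.2
        rw [hg]
        simp only
        rw [h0, zero_div]
      obtain ⟨p, k, hk, rfl⟩ := La_ne n h1
      obtain ⟨k, rfl⟩ := Nat.exists_eq_succ_of_ne_zero hk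
      have h2 := (h.mem_FM).1 hn.1
      rw [nF_single] at h2
      push_cast at h2
      rw [Finset.mem_image]
      refine ⟨(p, k), ?_, rfl⟩
      rw [hT, Finset.mem_product, h.mem_PM, Finset.mem_range]
      have h3 : (1 : ℝ) ≤ N p := by
        have := hNr p
        linarith
      refine ⟨?_, ?_⟩
      · calc (N p : ℝ) = (N p : ℝ) ^ 1 := (pow_one _).symm
          _ ≤ (N p : ℝ) ^ (k.succ) := pow_le_pow_right₀ h3 (by omega)
          _ ≤ y := h2
      · have h4 : (k : ℝ) < 2 ^ (k + 1) := by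
          have : k < 2 ^ (k + 1) := (Nat.lt_succ_self k).trans (Nat.lt_two_pow_self)
          exact_mod_cast this
        have h5 : (2 : ℝ) ^ (k + 1) ≤ (N p : ℝ) ^ (k + 1) := by
          have := hNr p
          gcongr
        have h6 : (k : ℝ) < y := lt_of_lt_of_le h4 (h5.trans h2)
        have h7 : (k : ℝ) < (K : ℝ) := h6.trans_le (Nat.le_ceil y)
        exact_mod_cast h7
    rw [e1]
    calc ∑ n ∈ (FM N y).filter (fun n => g n ≠ 0), g n ≤ ∑ n ∈ T.image e, g n :=
          Finset.sum_le_sum_of_subset_of_nonneg e2 fun n _ _ => hg0 n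
      _ = ∑ x ∈ T, g (e x) := Finset.sum_image hinj
      _ = ∑ p ∈ PM N y, ∑ k ∈ Finset.range K, Real.log (N p) * (1 / (N p : ℝ) ^ (k + 1)) := by
          rw [hT, Finset.sum_product]
          refine Finset.sum_congr rfl fun p _ => Finset.sum_congr rfl fun k _ => ?_
          exact hgs p k
      _ ≤ ∑ p ∈ PM N y, (Real.log (N p) / N p + 2 * (Real.log (N p) * (N p : ℝ) ^ (-2 : ℝ))) := by
          refine Finset.sum_le_sum fun p _ => ?_
          rw [← Finset.mul_sum]
          have h1 := geo (N p) (h.two p) K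
          have h2 : (N p : ℝ) ^ (-2 : ℝ) = 1 / (N p : ℝ) ^ 2 := by
            rw [Real.rpow_neg (hN0 p).le, one_div]
            congr 1
            exact_mod_cast Real.rpow_natCast (N p : ℝ) 2
          rw [h2]
          calc Real.log (N p) * ∑ k ∈ Finset.range K, 1 / (N p : ℝ) ^ (k + 1)
              ≤ Real.log (N p) * (1 / N p + 2 / (N p : ℝ) ^ 2) :=
                mul_le_mul_of_nonneg_left h1 (hl p)
            _ = _ := by ring
      _ = ∑ p ∈ PM N y, Real.log (N p) / N p +
            2 * ∑ p ∈ PM N y, Real.log (N p) * (N p : ℝ) ^ (-2 : ℝ) := by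
          rw [Finset.sum_add_distrib, Finset.mul_sum]
      _ ≤ ∑ p ∈ PM N y, Real.log (N p) / N p + 2 * B := by
          have := hs.sum_le_tsum (PM N y) fun p _ =>
            mul_nonneg (hl p) (Real.rpow_nonneg (hN0 p).le _)
          linarith
  have h1 := hψ y hy
  rw [hLam, abs_le] at h1
  rw [abs_le]
  constructor
  · linarith [h1.1]
  · linarith [h1.2]

/-- the product over the primes -/
theorem mer2 (h : AxA N ρ δ) (C : ℝ) (hC : 0 < C)
    (hS : ∀ y : ℝ, 1 ≤ y → |∑ p ∈ PM N y, Real.log (N p) / N p - Real.log y| ≤ C) :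
    ∃ C' : ℝ, 0 < C' ∧ ∀ y : ℝ, 1 ≤ y →
      ∏ p ∈ PM N y, (1 + 1 / (N p : ℝ)) ≤ C' * (1 + Real.log y) := by
  classical
  have hNr : ∀ p, (2 : ℝ) ≤ N p := fun p => by exact_mod_cast h.two p
  have hN0 : ∀ p, (0 : ℝ) < N p := fun p => by
    have := hNr p
    linarith
  have hl : ∀ p, 0 ≤ Real.log (N p) := fun p => Real.log_nonneg (by
    have := hNr p
    linarith)
  set A : ℕ → ℝ := fun j => ∑ p ∈ PM N (Real.exp j), Real.log (N p) / N p with hA
  set B : ℕ → ℝ := fun j => ∑ p ∈ PM N (Real.exp j), 1 / (N p : ℝ) with hB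
  have hsub : ∀ x y : ℝ, x ≤ y → PM N x ⊆ PM N y := by
    intro x y hxy p hp
    rw [h.mem_PM] at hp ⊢
    linarith
  have hA0 : ∀ j, 0 ≤ A j := fun j => Finset.sum_nonneg fun p _ =>
    div_nonneg (hl p) (hN0 p).le
  have hAj : ∀ j : ℕ, A j ≤ j + C := by
    intro j
    have h1 := hS (Real.exp j) (Real.one_le_exp (by positivity))
    rw [Real.log_exp, abs_le] at h1
    linarith [h1.2]
  -- the step
  have step : ∀ j : ℕ, 1 ≤ j → B (j + 1) - B j ≤ (A (j + 1) - A j) / j := by
    intro j hj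
    have hj0 : (0 : ℝ) < j := by exact_mod_cast hj
    have hs := hsub (Real.exp j) (Real.exp ((j + 1 : ℕ) : ℝ)) (by
      apply Real.exp_le_exp.2
      push_cast
      linarith)
    rw [hA, hB]
    simp only
    rw [← Finset.sum_sdiff_eq_sub hs, ← Finset.sum_sdiff_eq_sub hs, Finset.sum_div]
    refine Finset.sum_le_sum fun p hp => ?_
    rw [Finset.mem_sdiff, h.mem_PM, h.mem_PM, not_le] at hp
    have h1 : (j : ℝ) < Real.log (N p) := by
      rw [Real.lt_log_iff_exp_lt (hN0 p)]
      exact hp.2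
    rw [div_div, div_le_div_iff₀ (hN0 p) (mul_pos (hN0 p) hj0)]
    have := hN0 p
    nlinarith
  -- the claim
  have claim : ∀ j : ℕ, 1 ≤ j → B j - A j / j ≤
      B 1 + 1 + Real.log j - 1 / j + C * (1 - 1 / j) := by
    intro j hj
    induction j, hj using Nat.le_induction with
    | base =>
      have := hA0 1
      simp only [Nat.cast_one, div_one, Real.log_one, sub_self, mul_zero, add_zero]
      linarith
    | succ j hj ih =>
      have hj0 : (0 : ℝ) < j := by exact_mod_cast hj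
      have h1 := step j hj
      have h2 := hAj (j + 1)
      push_cast at h2 ⊢
      have h3 : A (j + 1) / (j : ℝ) - A (j + 1) / ((j : ℝ) + 1) =
          A (j + 1) / ((j : ℝ) * (j + 1)) := by
        field_simp
        ring
      have h4 : A (j + 1) / ((j : ℝ) * (j + 1)) ≤ ((j : ℝ) + 1 + C) / ((j : ℝ) * (j + 1)) := by
        gcongr
      have h5 : ((j : ℝ) + 1 + C) / ((j : ℝ) * (j + 1)) = 1 / j + C * (1 / j - 1 / (j + 1)) := by
        field_simp
        ring
      have h6 : Real.log j + 1 / ((j : ℝ) + 1) ≤ Real.log ((j : ℝ) + 1) := by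
        have e1 : Real.log ((j : ℝ) + 1) - Real.log j = -Real.log ((j : ℝ) / (j + 1)) := by
          rw [Real.log_div hj0.ne' (by linarith)]
          ring
        have e2 := Real.log_le_sub_one_of_pos (x := (j : ℝ) / (j + 1)) (by positivity)
        have e3 : (j : ℝ) / (j + 1) - 1 = -(1 / ((j : ℝ) + 1)) := by
          field_simp
          ring
        rw [e3] at e2
        linarith
      have h7 : (A (j + 1) - A j) / (j : ℝ) = A (j + 1) / j - A j / j := by ring
      rw [h7] at h1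
      have h8 : C * (1 - 1 / (j : ℝ)) + C * (1 / j - 1 / (j + 1)) = C * (1 - 1 / ((j : ℝ) + 1)) := by
        ring
      linarith
  have hBle : ∀ j : ℕ, 1 ≤ j → B j ≤ B 1 + 2 + 2 * C + Real.log j := by
    intro j hj
    have hj0 : (0 : ℝ) < j := by exact_mod_cast hj
    have hj1 : (1 : ℝ) ≤ j := by exact_mod_cast hj
    have h1 := claim j hj
    have h2 : A j / j ≤ 1 + C := by
      rw [div_le_iff₀ hj0]
      have := hAj j
      nlinarith
    have h3 : 0 < 1 / (j : ℝ) := by positivity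
    have h4 : C * (1 - 1 / (j : ℝ)) ≤ C := by nlinarith
    linarith
  refine ⟨Real.exp (B 1 + 2 + 2 * C), Real.exp_pos _, fun y hy => ?_⟩
  have hly : 0 ≤ Real.log y := Real.log_nonneg hy
  set J : ℕ := ⌊Real.log y⌋₊ + 1 with hJ
  have hJ1 : 1 ≤ J := by omega
  have hJle : (J : ℝ) ≤ 1 + Real.log y := by
    rw [hJ]
    push_cast
    have := Nat.floor_le hly
    linarith
  have hyJ : y ≤ Real.exp J := by
    have h1 : Real.log y < J := by
      rw [hJ]
      push_cast
      exact Nat.lt_floor_add_one _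
    calc y = Real.exp (Real.log y) := (Real.exp_log (by linarith)).symm
      _ ≤ Real.exp J := Real.exp_le_exp.2 h1.le
  have hJ0 : (0 : ℝ) < J := by exact_mod_cast hJ1
  calc ∏ p ∈ PM N y, (1 + 1 / (N p : ℝ)) ≤ ∏ p ∈ PM N y, Real.exp (1 / (N p : ℝ)) := by
        refine Finset.prod_le_prod (fun p _ => ?_) fun p _ => ?_
        · have := hN0 p
          positivity
        · have := Real.add_one_le_exp (1 / (N p : ℝ))
          linarith
    _ = Real.exp (∑ p ∈ PM N y, 1 / (N p : ℝ)) := (Real.exp_sum _ _).symm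
    _ ≤ Real.exp (B J) := by
        apply Real.exp_le_exp.2
        refine Finset.sum_le_sum_of_subset_of_nonneg (hsub _ _ hyJ) fun p _ _ => ?_
        have := hN0 p
        positivity
    _ ≤ Real.exp (B 1 + 2 + 2 * C + Real.log J) := Real.exp_le_exp.2 (hBle J hJ1)
    _ = Real.exp (B 1 + 2 + 2 * C) * J := by rw [Real.exp_add, Real.exp_log hJ0]
    _ ≤ Real.exp (B 1 + 2 + 2 * C) * (1 + Real.log y) := by gcongr

end

theorem pf_MRT (h_CVI : T_CVI) (h_SUM : T_SUM) (h_EXP : T_EXP) (h_MU0 : T_MU0)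
    (h_MU1 : T_MU1) : T_MRT := by
  intro α N ρ δ h
  obtain ⟨C, hC, hS⟩ := mer1 h_CVI h_SUM h_EXP h_MU0 h_MU1 h
  obtain ⟨C', hC', hP⟩ := mer2 h C hC hS
  refine ⟨C + C', by positivity, fun y hy => ⟨?_, ?_⟩⟩
  · have := hS y hy
    linarith
  · have h1 := hP y hy
    have h2 : 0 ≤ Real.log y := Real.log_nonneg hy
    nlinarith

end Pool.Agent.H40.NVK
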