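import Pool.Agent.H91.NV.LTargets

/-!
# FRB: quadratic polynomials over a finite ring with a leading coefficient in the maximal ideal
-/

set_option autoImplicit false

open MeasureTheory Set Filter NumberField NumberField.InfinitePlace
open scoped Real

namespace Pool.Agent.H40.NVK

open Pool.Agent.H65.CM4 Pool.Agent.H61.NVK Pool.Agent.H89.NV Pool.Agent.H91.NV

section

variable {S : Type} [CommRing S] [Fintype S] {m : Ideal S} {N : ℕ}

open Classical in
theorem lr_card (h : LR S m N) : (Finset.univ.filter (fun s : S => s ∈ m)).card = N := by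
  have h1 := h.cardm
  rw [Nat.card_eq_fintype_card, Fintype.card_subtype] at h1
  rw [← h1]

theorem lr_mul (h : LR S m N) {x y : S} : x * y ∈ m ↔ x ∈ m ∨ y ∈ m := by
  constructor
  · intro h1
    by_contra h2
    push Not at h2
    have h3 := (h.unit x).1 h2.1
    have h4 := (h.unit y).1 h2.2
    exact (h.unit _).2 (h3.mul h4) h1
  · rintro (h1 | h1)
    · exact Ideal.mul_mem_right _ _ h1
    · exact Ideal.mul_mem_left _ _ h1

open Classical in
theorem lr_lin (h : LR S m N) {u : S} (hu : IsUnit u) (c : S) :
    (Finset.univ.filter (fun s : S => u * s + c ∈ m)).card = N := by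
  rw [← lr_card h]
  obtain ⟨w, rfl⟩ := hu
  exact Finset.card_equiv ((Units.mulLeft w).trans (Equiv.addRight c)) fun s => by
    simp only [Finset.mem_filter, Finset.mem_univ, true_and, Equiv.trans_apply,
      Units.mulLeft_apply, Equiv.coe_addRight]

open Classical in
theorem lr_sum (h : LR S m N) (x y : ℝ) :
    ∑ b : S, (if b ∈ m then x else y) = N * x + ((N : ℝ) ^ 2 - N) * y := by
  have h1 : ∀ b : S, (if b ∈ m then x else y) = y + (x - y) * (if b ∈ m then 1 else 0) := by
    intro b
    split_ifs <;> ring
  rw [Finset.sum_congr rfl fun b _ => h1 b, Finset.sum_add_distrib, ← Finset.mul_sum,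
    Finset.sum_boole, lr_card h, Finset.sum_const, Finset.card_univ, h.cardS]
  push_cast
  simp only [nsmul_eq_mul]
  push_cast
  ring

/-- the elements `s` with `s * (u * s + b) ∈ m` for units `u`, `b` -/
theorem lr_two (h : LR S m N) {u b c : S} (hu : IsUnit u) (hb : b ∉ m) (hc : c ∈ m) :
    rm m u b c = 2 * N := by
  classical
  unfold rm
  have h1 : (Finset.univ.filter (fun s : S => u * s ^ 2 + b * s + c ∈ m)) =
      (Finset.univ.filter (fun s : S => s ∈ m)) ∪
        (Finset.univ.filter (fun s : S => u * s + b ∈ m)) := by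
    ext s
    simp only [Finset.mem_filter, Finset.mem_univ, true_and, Finset.mem_union]
    rw [← lr_mul h, Ideal.add_mem_iff_left m hc, show u * s ^ 2 + b * s = s * (u * s + b) by ring]
  have h2 : Disjoint (Finset.univ.filter (fun s : S => s ∈ m))
      (Finset.univ.filter (fun s : S => u * s + b ∈ m)) := by
    rw [Finset.disjoint_filter]
    intro s _ h3 h4
    apply hb
    have := m.sub_mem h4 (Ideal.mul_mem_left m u h3)
    simpa using this
  have h3 := Finset.card_union_of_disjoint h2
  have h4 := lr_card h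
  have h5 := lr_lin h hu b
  calc (Finset.univ.filter (fun s : S => u * s ^ 2 + b * s + c ∈ m)).card
      = _ := congrArg Finset.card h1
    _ = _ := h3
    _ = 2 * N := by
      have e4 : (Finset.univ.filter (fun s : S => s ∈ m)).card = N := by
        rw [← h4]
      have e5 : (Finset.univ.filter (fun s : S => u * s + b ∈ m)).card = N := by
        rw [← h5]
      rw [e4, e5]
      ring

/-- leading coefficient in `m`, linear coefficient a unit -/
theorem lr_one (h : LR S m N) {a b c : S} (ha : a ∈ m) (hb : b ∉ m) : rm m a b c = N := by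
  classical
  unfold rm
  rw [← lr_lin h ((h.unit b).1 hb) c]
  congr 1
  ext s
  simp only [Finset.mem_filter, Finset.mem_univ, true_and]
  rw [show a * s ^ 2 + b * s + c = a * s ^ 2 + (b * s + c) by ring,
    Ideal.add_mem_iff_right m (Ideal.mul_mem_right _ m ha)]

/-- the number of roots is `1` if the linear coefficient is a unit -/
theorem lr_root (h : LR S m N) {a b c : S} (ha : a ∈ m) (hb : b ∉ m) : rm ⊥ a b c = 1 := by
  classical
  unfold rm
  have hinj : Function.Injective fun s : S => a * s ^ 2 + b * s + c := by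
    intro s t hst
    have h1 : (s - t) * (a * (s + t) + b) = 0 := by
      have : a * s ^ 2 + b * s + c = a * t ^ 2 + b * t + c := hst
      linear_combination this
    have h2 : IsUnit (a * (s + t) + b) := by
      rw [← h.unit]
      intro h3
      apply hb
      have := m.sub_mem h3 (Ideal.mul_mem_right (s + t) m ha)
      simpa using this
    have h3 := h2.mul_left_eq_zero.1 h1
    exact sub_eq_zero.1 h3
  have hsur := Finite.surjective_of_injective hinj
  obtain ⟨s₀, hs₀⟩ := hsur 0
  rw [Finset.card_eq_one]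
  refine ⟨s₀, ?_⟩
  ext s
  simp only [Finset.mem_filter, Finset.mem_univ, true_and, Finset.mem_singleton, Ideal.mem_bot]
  constructor
  · intro h1
    exact hinj (h1.trans hs₀.symm)
  · rintro rfl
    exact hs₀

/-- leading coefficient a unit, the others in `m` -/
theorem lr_sq (h : LR S m N) {u b c : S} (hu : IsUnit u) (hb : b ∈ m) (hc : c ∈ m) :
    rm m u b c = N := by
  classical
  unfold rm
  rw [← lr_card h]
  congr 1
  ext s
  simp only [Finset.mem_filter, Finset.mem_univ, true_and]
  rw [Ideal.add_mem_iff_left m hc, Ideal.add_mem_iff_left m (Ideal.mul_mem_right _ m hb),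
    lr_mul h, pow_two, lr_mul h]
  constructor
  · rintro (h1 | h1)
    · exact absurd h1 ((h.unit u).2 hu)
    · exact h1.elim id id
  · intro h1
    exact Or.inr (Or.inl h1)

/-- constant coefficient a unit, the others in `m` -/
theorem lr_zero {J : Ideal S} (hJ : J ≤ m) {a b c : S} (ha : a ∈ m) (hb : b ∈ m)
    (hc : c ∉ m) : rm J a b c = 0 := by
  classical
  unfold rm
  rw [Finset.card_eq_zero, Finset.filter_eq_empty_iff]
  intro s _ h1
  apply hc
  have h2 := hJ h1
  rwa [Ideal.add_mem_iff_right m
    (m.add_mem (Ideal.mul_mem_right _ m ha) (Ideal.mul_mem_right _ m hb))] at h2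

theorem gm_unit (h : LR S m N) {a b c : S} (ha : a ∈ m) (hb : b ∉ m) : gm m a b c := by
  rintro ⟨s, h1, h2⟩
  have h3 : s * (s + b) ∈ m := by
    have : s * (s + b) = -(a * c) := by linear_combination h2
    rw [this]
    exact m.neg_mem (Ideal.mul_mem_right _ m ha)
  apply hb
  rcases (lr_mul h).1 h3 with h4 | h4
  · have := m.sub_mem h1 (Ideal.mul_mem_left m 2 h4)
    simpa using this
  · have : b = 2 * (s + b) - (b + 2 * s) := by ring
    rw [this]
    exact m.sub_mem (Ideal.mul_mem_left m 2 h4) h1

theorem gm_c (h : LR S m N) {a b c : S} (ha : a ∈ m) (ha0 : a ≠ 0) (hb : b ∈ m) (hc : c ∉ m) :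
    gm m a b c := by
  rintro ⟨s, -, h2⟩
  have h3 : s * s ∈ m := by
    have : s * s = -(b * s + a * c) := by linear_combination h2
    rw [this]
    exact m.neg_mem (m.add_mem (Ideal.mul_mem_right _ m hb) (Ideal.mul_mem_right _ m ha))
  have h4 : s ∈ m := ((lr_mul h).1 h3).elim id id
  have h5 : a * c = 0 := by
    have e1 := h.sq s h4 s h4
    have e2 := h.sq b hb s h4
    linear_combination h2 - e1 - e2
  exact ha0 (((h.unit c).1 hc).mul_left_eq_zero.1 h5)

end

theorem pf_FRB : T_FRB := by
  classical
  intro S _ _ m N h α α₁ Φ hα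
  have h01 : ∀ V₁ V₂ : ℝ, ∑ b : S, ∑ c : S,
      (if b ∈ m then (if c ∈ m then 0 else V₂) else V₁) =
      (N : ℝ) ^ 3 * (N - 1) * V₁ + (N : ℝ) ^ 2 * (N - 1) * V₂ := by
    intro V₁ V₂
    have h1 : ∀ b : S, ∑ c : S, (if b ∈ m then (if c ∈ m then 0 else V₂) else V₁) =
        if b ∈ m then ((N : ℝ) ^ 2 - N) * V₂ else (N : ℝ) ^ 2 * V₁ := by
      intro b
      by_cases hb : b ∈ m
      · simp only [if_pos hb]
        rw [lr_sum h 0 V₂]
        ring
      · simp only [if_neg hb]
        rw [Finset.sum_const, Finset.card_univ, h.cardS, nsmul_eq_mul]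
        push_cast
        ring
    rw [Finset.sum_congr rfl fun b _ => h1 b, lr_sum h]
    ring
  have hαc : ∀ c, α * c ∈ m := fun c => Ideal.mul_mem_right _ m hα
  constructor
  · intro hα0 hα₁
    rw [← h01]
    refine Finset.sum_congr rfl fun b _ => Finset.sum_congr rfl fun c _ => ?_
    by_cases hb : b ∈ m
    · rw [if_pos hb]
      by_cases hc : c ∈ m
      · rw [if_pos hc, if_neg]
        intro hg
        exact hg ⟨0, by simpa using hb, by rw [h.sq α hα c hc]; ring⟩
      · rw [if_neg hc, if_pos (gm_c h hα hα0 hb hc), lr_sq h isUnit_one hb (hαc c),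
          lr_zero le_rfl hα hb hc, lr_zero bot_le hα hb hc, lr_sq h hα₁ hb m.zero_mem]
    · rw [if_neg hb, if_pos (gm_unit h hα hb), lr_two h isUnit_one hb (hαc c),
        lr_one h hα hb, lr_root h hα hb, lr_two h hα₁ hb m.zero_mem]
  · intro hα0 hα₁
    have h2 := h01 (Φ (2 * N) N 1 N) 0
    rw [mul_zero, add_zero] at h2
    rw [← h2]
    refine Finset.sum_congr rfl fun b _ => Finset.sum_congr rfl fun c _ => ?_
    by_cases hb : b ∈ m
    · rw [if_pos hb, ite_self, if_neg]
      intro hg
      exact hg ⟨0, by simpa using hb, by rw [hα0]; ring⟩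
    · rw [if_neg hb, if_pos (gm_unit h hα hb), lr_two h isUnit_one hb (hαc c),
        lr_one h hα hb, lr_root h hα hb, lr_one h hα₁ hb]

end Pool.Agent.H40.NVK
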